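import Pool.Agent.TH357.MonoCupGeom

/-!
# Monochromatic convex polygons in two-coloured point sets (MP_6c3374_co)

`log g(p) = O(p² log p)`.
-/

set_option autoImplicit false

namespace Pool.Agent.Results.MP_6c3374_co.QuadraticExponent

/-- the plane -/
abbrev Plane := EuclideanSpace ℝ (Fin 2)

/-- no three points of `P` are collinear -/
def GeneralPosition (P : Finset Plane) : Prop :=
  ∀ a ∈ P, ∀ b ∈ P, ∀ c ∈ P, a ≠ b → a ≠ c → b ≠ c → ¬ Collinear ℝ ({a, b, c} : Set Plane)

/-- each point of `T` is a vertex of the convex hull of `T`: it does not lie in the convex hull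
of the other points -/
def ConvexPosition (T : Finset Plane) : Prop :=
  ∀ v ∈ T, v ∉ convexHull ℝ ((T : Set Plane) \ {v})

/-- for every `n` points in general position and every colouring of the pairs with two colours,
some `p` of the points are in convex position with all pairs of the same colour -/
def Arrows (n p : ℕ) : Prop :=
  ∀ P : Finset Plane, P.card = n → GeneralPosition P → ∀ χ : Sym2 Plane → Bool,
    ∃ T ⊆ P, T.card = p ∧ ConvexPosition T ∧
      ∃ c : Bool, ∀ x ∈ T, ∀ y ∈ T, x ≠ y → χ s(x, y) = c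

/-- the function `g(p)` of the problem -/
noncomputable def g (p : ℕ) : ℕ := sInf {n : ℕ | Arrows n p}

open Pool.Agent.Helper456.ES Pool.Agent.TH357.MonoCup

lemma collinear_of_det (a b c : Plane) (hab : a ≠ b) (h : det a b c = 0) :
    Collinear ℝ ({a, b, c} : Set Plane) := by
  rw [collinear_iff_of_mem (p₀ := a) (by simp)]
  refine ⟨b - a, ?_⟩
  intro p hp
  simp only [Set.mem_insert_iff, Set.mem_singleton_iff] at hp
  rcases hp with rfl | rfl | rfl
  · exact ⟨0, by simp⟩
  · exact ⟨1, by simp⟩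
  · have hne : (b 0 - a 0) ≠ 0 ∨ (b 1 - a 1) ≠ 0 := by
      by_contra hcon
      push Not at hcon
      apply hab
      ext i
      fin_cases i
      · show a 0 = b 0
        linarith [hcon.1]
      · show a 1 = b 1
        linarith [hcon.2]
    unfold det at h
    rcases hne with hne | hne
    · refine ⟨(p 0 - a 0) / (b 0 - a 0), ?_⟩
      ext i
      fin_cases i
      · simp
        field_simp
        ring
      · simp
        field_simp
        linarith
    · refine ⟨(p 1 - a 1) / (b 1 - a 1), ?_⟩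
      ext i
      fin_cases i
      · simp
        field_simp
        linarith
      · simp
        field_simp
        ring

lemma gp_of_generalPosition {P : Finset Plane} (h : GeneralPosition P) : GP P := by
  intro a ha b hb c hc hab hac hbc hd
  exact h a ha b hb c hc hab hac hbc (collinear_of_det a b c hab hd)

lemma arrows_of_lt (k n : ℕ) (h : F (2 * k ^ 2) < n) : Arrows n (k + 2) := by
  intro P hPn hP χ
  have hGP := gp_of_generalPosition hP
  obtain ⟨t, ht⟩ := exists_psi P
  obtain ⟨σ, hσ, c, T, hTP, hTc, hcup, hmono⟩ := exists_mono_cup_or_cap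
    (fun x y => χ s(x, y)) (fun x y => by rw [Sym2.eq_swap]) k hGP ht (by rw [hPn]; exact h)
  refine ⟨T, hTP, hTc, ?_, c, hmono⟩
  intro v hv
  refine hcup.convex (hGP.mono hTP) (fun p hp q hq => ht p (hTP hp) q (hTP hq)) ?_ (by omega) hv
  rcases hσ with rfl | rfl <;> norm_num

theorem result : ∀ p : ℕ, 3 ≤ p →
    Arrows (g p) p ∧
    g p ≤ ⌊Real.exp 1 * (2 * (p - 2) ^ 2).factorial⌋₊ + 1 ∧
    Real.logb 2 (g p) ≤ 6 * ((p : ℝ) - 2) ^ 2 * Real.logb 2 p := by
  intro p hp
  obtain ⟨k, rfl⟩ : ∃ k, p = k + 2 := ⟨p - 2, by omega⟩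
  have hk : 1 ≤ k := by omega
  have hmem : F (2 * k ^ 2) + 1 ∈ {n : ℕ | Arrows n (k + 2)} := arrows_of_lt k _ (Nat.lt_succ_self _)
  have hg : g (k + 2) ≤ F (2 * k ^ 2) + 1 := Nat.sInf_le hmem
  refine ⟨Nat.sInf_mem ⟨_, hmem⟩, ?_, ?_⟩
  · have := F_le_exp (2 * k ^ 2)
    rw [Nat.add_sub_cancel]
    omega
  · have hgpos : 0 < g (k + 2) := by
      rcases Nat.eq_zero_or_pos (g (k + 2)) with h0 | h0
      · exfalso
        have h1 : Arrows (g (k + 2)) (k + 2) := Nat.sInf_mem ⟨_, hmem⟩
        rw [h0] at h1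
        obtain ⟨T, hT, hTc, -⟩ := h1 ∅ (by simp) (by intro a ha; simp at ha) (fun _ => true)
        rw [Finset.subset_empty.mp hT, Finset.card_empty] at hTc
        omega
      · exact h0
    have h1 : 2 ≤ 2 * k ^ 2 := by nlinarith
    have h2 : g (k + 2) ≤ (2 * k ^ 2 + 1) ^ (2 * k ^ 2) := hg.trans (F_add_one_le _ h1)
    have h3 : 2 * k ^ 2 + 1 ≤ (k + 2) ^ 3 := by
      have : (k + 2) ^ 3 = k ^ 3 + 6 * k ^ 2 + 12 * k + 8 := by ring
      rw [this]
      nlinarith [sq_nonneg k]
    have h4 : g (k + 2) ≤ (k + 2) ^ (3 * (2 * k ^ 2)) := by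
      rw [pow_mul]
      exact h2.trans (Nat.pow_le_pow_left h3 _)
    have h5 : (g (k + 2) : ℝ) ≤ ((k + 2 : ℕ) : ℝ) ^ (3 * (2 * k ^ 2)) := by exact_mod_cast h4
    have h6 : Real.logb 2 (g (k + 2)) ≤ Real.logb 2 (((k + 2 : ℕ) : ℝ) ^ (3 * (2 * k ^ 2))) :=
      Real.logb_le_logb_of_le (by norm_num) (by exact_mod_cast hgpos) h5
    rw [Real.logb_pow] at h6
    refine h6.trans (le_of_eq ?_)
    push_cast
    ring

end Pool.Agent.Results.MP_6c3374_co.QuadraticExponent
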